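import Pool.Agent.Lib.MP_7c7c4f_lc.TM.Tree

/-!
# Polynomial-time functions between types encoded by binary trees
-/

namespace Pool.Agent.Lib.MP_7c7c4f_lc.TM

open Function

/-- Types with an encoding by binary trees. -/
class TrEnc (α : Type) where
  enc : α → Tr

export TrEnc (enc)

variable {α β γ δ σ : Type} [TrEnc α] [TrEnc β] [TrEnc γ] [TrEnc δ] [TrEnc σ]

/-- Size of the encoding. -/
def sz (a : α) : ℕ := (enc a).size

instance instTrEncTr : TrEnc Tr := ⟨id⟩
instance instTrEncUnit : TrEnc Unit := ⟨fun _ => .nil⟩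
instance instTrEncBool : TrEnc Bool := ⟨fun b => bif b then .cons .nil .nil else .nil⟩
instance instTrEncProd : TrEnc (α × β) := ⟨fun p => .cons (enc p.1) (enc p.2)⟩

/-- Encoding of lists. -/
def encList : List α → Tr
  | [] => .nil
  | a :: l => .cons (enc a) (encList l)

instance instTrEncList : TrEnc (List α) := ⟨encList⟩

/-- Natural numbers are encoded in unary. -/
def encNat : ℕ → Tr
  | 0 => .nil
  | n + 1 => .cons .nil (encNat n)

instance instTrEncNat : TrEnc ℕ := ⟨encNat⟩

/-- Encoding of options. -/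
instance instTrEncOption : TrEnc (Option α) := ⟨fun o => match o with
  | none => .nil
  | some a => .cons (enc a) .nil⟩

@[simp] theorem enc_tr (x : Tr) : enc x = x := rfl
@[simp] theorem enc_unit (x : Unit) : enc x = .nil := rfl
@[simp] theorem enc_true : enc true = .cons .nil .nil := rfl
@[simp] theorem enc_false : enc false = .nil := rfl
@[simp] theorem enc_prod (a : α) (b : β) : enc (a, b) = .cons (enc a) (enc b) := rfl
theorem enc_prod' (p : α × β) : enc p = .cons (enc p.1) (enc p.2) := rfl
@[simp] theorem enc_nil : enc ([] : List α) = .nil := rfl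
@[simp] theorem enc_cons (a : α) (l : List α) : enc (a :: l) = .cons (enc a) (enc l) := rfl
@[simp] theorem enc_zero : enc (0 : ℕ) = .nil := rfl
@[simp] theorem enc_succ (n : ℕ) : enc (n + 1) = .cons .nil (enc n) := rfl
@[simp] theorem enc_none : enc (none : Option α) = .nil := rfl
@[simp] theorem enc_some (a : α) : enc (some a) = .cons (enc a) .nil := rfl

@[simp] theorem sz_tr (x : Tr) : sz x = x.size := rfl
@[simp] theorem sz_unit (x : Unit) : sz x = 1 := rfl
@[simp] theorem sz_prod (a : α) (b : β) : sz (a, b) = sz a + sz b + 1 := rfl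
theorem sz_prod' (p : α × β) : sz p = sz p.1 + sz p.2 + 1 := rfl
@[simp] theorem sz_nil : sz ([] : List α) = 1 := rfl
@[simp] theorem sz_cons (a : α) (l : List α) : sz (a :: l) = sz a + sz l + 1 := rfl
@[simp] theorem sz_nat (n : ℕ) : sz n = 2 * n + 1 := by
  induction n with
  | zero => rfl
  | succ n ih =>
    have : sz (n + 1) = 1 + sz n + 1 := rfl
    rw [this, ih]; ring
theorem sz_bool_le (b : Bool) : sz b ≤ 3 := by cases b <;> decide
theorem one_le_sz (a : α) : 1 ≤ sz a := Tr.one_le_size _

theorem sz_append (l l' : List α) : sz (l ++ l') + 1 = sz l + sz l' := by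
  induction l with
  | nil => simp [add_comm]
  | cons a l ih => simp only [List.cons_append, sz_cons]; omega

theorem length_lt_sz (l : List α) : l.length < sz l := by
  induction l with
  | nil => simp
  | cons a l ih => simp only [List.length_cons, sz_cons]; omega

theorem sz_le_of_forall (l : List α) (B : ℕ) (h : ∀ a ∈ l, sz a ≤ B) :
    sz l ≤ l.length * (B + 1) + 1 := by
  induction l with
  | nil => simp
  | cons a l ih =>
    have h1 := h a (by simp)
    have h2 := ih (fun b hb => h b (by simp [hb]))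
    simp only [List.length_cons, sz_cons]
    have : (l.length + 1) * (B + 1) = l.length * (B + 1) + (B + 1) := by ring
    omega

theorem sz_bools_le (l : List Bool) : sz l ≤ 4 * l.length + 1 := by
  have := sz_le_of_forall l 3 (fun b _ => sz_bool_le b)
  omega

theorem sz_le_of_mem {a : α} {l : List α} (h : a ∈ l) : sz a ≤ sz l := by
  induction l with
  | nil => simp at h
  | cons b l ih =>
    simp only [sz_cons]
    rcases List.mem_cons.1 h with h | h
    · subst h; omega
    · have := ih h; omega

theorem polyEval_mono (P : Polynomial ℕ) {a b : ℕ} (h : a ≤ b) : P.eval a ≤ P.eval b := by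
  rw [Polynomial.eval_eq_sum_range, Polynomial.eval_eq_sum_range]
  gcongr

/-- Polynomially bounded quantities. -/
def PB (B : α → ℕ) : Prop := ∃ P : Polynomial ℕ, ∀ a, B a ≤ P.eval (sz a)

theorem PB.mono {B B' : α → ℕ} (h : PB B') (hB : ∀ a, B a ≤ B' a) : PB B := by
  obtain ⟨P, hP⟩ := h
  exact ⟨P, fun a => (hB a).trans (hP a)⟩

theorem PB.const (n : ℕ) : PB (fun _ : α => n) := ⟨Polynomial.C n, fun a => by simp⟩

theorem PB.add {B B' : α → ℕ} (h : PB B) (h' : PB B') : PB (fun a => B a + B' a) := by
  obtain ⟨P, hP⟩ := h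
  obtain ⟨P', hP'⟩ := h'
  exact ⟨P + P', fun a => by rw [Polynomial.eval_add]; exact add_le_add (hP a) (hP' a)⟩

theorem PB.mul {B B' : α → ℕ} (h : PB B) (h' : PB B') : PB (fun a => B a * B' a) := by
  obtain ⟨P, hP⟩ := h
  obtain ⟨P', hP'⟩ := h'
  exact ⟨P * P', fun a => by rw [Polynomial.eval_mul]; exact Nat.mul_le_mul (hP a) (hP' a)⟩

theorem PB.sz : PB (fun a : α => TM.sz a) := ⟨Polynomial.X, fun a => by simp⟩

theorem PB.poly {B : α → ℕ} (h : PB B) (Q : Polynomial ℕ) : PB (fun a => Q.eval (B a)) := by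
  obtain ⟨P, hP⟩ := h
  exact ⟨Q.comp P, fun a => by rw [Polynomial.eval_comp]; exact polyEval_mono Q (hP a)⟩

/-- `TimeB f T`: the function `f` is computed by a program in time `T`. -/
def TimeB (f : α → β) (T : α → ℕ) : Prop :=
  ∃ p : SProg, ∀ a, RunsTo p (enc a) (enc (f a)) (T a)

/-- Polynomial-time functions. -/
def PTime (f : α → β) : Prop := ∃ T : α → ℕ, PB T ∧ TimeB f T

theorem TimeB.mono {f : α → β} {T T' : α → ℕ} (h : TimeB f T) (hT : ∀ a, T a ≤ T' a) :
    TimeB f T' := by
  obtain ⟨p, hp⟩ := h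
  exact ⟨p, fun a => (hp a).mono (hT a)⟩

theorem TimeB.ptime {f : α → β} {T : α → ℕ} (h : TimeB f T) (hT : PB T) : PTime f :=
  ⟨T, hT, h⟩

theorem PTime.exists_poly {f : α → β} (h : PTime f) :
    ∃ (p : SProg) (P : Polynomial ℕ), ∀ a, RunsTo p (enc a) (enc (f a)) (P.eval (sz a)) := by
  obtain ⟨T, ⟨P, hP⟩, p, hp⟩ := h
  exact ⟨p, P, fun a => (hp a).mono (hP a)⟩

theorem PTime.pb_sz {f : α → β} (h : PTime f) : PB (fun a => sz (f a)) := by
  obtain ⟨T, hT, p, hp⟩ := h
  exact (PB.sz.add hT).mono (fun a => (hp a).size_le)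

theorem PB.comp {f : α → β} {B : β → ℕ} (hB : PB B) (hf : PTime f) : PB (fun a => B (f a)) := by
  obtain ⟨P, hP⟩ := hB
  exact (hf.pb_sz.poly P).mono (fun a => hP (f a))

theorem PTime.congrEnc {f : α → β} {g : γ → δ} (h : PTime f) (e : γ → α)
    (he : ∀ c, enc (e c) = enc c) (hg : ∀ c, enc (g c) = enc (f (e c))) : PTime g := by
  obtain ⟨p, P, hp⟩ := h.exists_poly
  refine ⟨fun c => P.eval (sz c), ⟨P, fun _ => le_rfl⟩, p, fun c => ?_⟩
  have := hp (e c)
  rw [he, ← hg] at this
  have h2 : sz (e c) = sz c := by unfold sz; rw [he]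
  rw [h2] at this
  exact this

theorem PTime.id : PTime (fun a : α => a) :=
  ⟨fun _ => 1, PB.const 1, .skip, fun _ => runsTo_skip _⟩

/-- Functions which do not change the encoding. -/
theorem PTime.ofEncEq {f : α → β} (h : ∀ a, enc (f a) = enc a) : PTime f :=
  ⟨fun _ => 1, PB.const 1, .skip, fun a => by rw [h]; exact runsTo_skip _⟩

theorem TimeB.comp {g : β → γ} {f : α → β} {T : α → ℕ} {T' : β → ℕ} (hg : TimeB g T')
    (hf : TimeB f T) : TimeB (fun a => g (f a)) (fun a => T a + T' (f a)) := by
  obtain ⟨p, hp⟩ := hf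
  obtain ⟨q, hq⟩ := hg
  exact ⟨.seq p q, fun a => (hp a).comp (hq (f a))⟩

theorem PTime.comp {g : β → γ} {f : α → β} (hg : PTime g) (hf : PTime f) :
    PTime (fun a => g (f a)) := by
  obtain ⟨T', hT', hg'⟩ := hg
  have hf0 := hf
  obtain ⟨T, hT, hf'⟩ := hf0
  exact ⟨_, hT.add (hT'.comp hf), hg'.comp hf'⟩

theorem PTime.const (b : β) : PTime (fun _ : α => b) :=
  ⟨fun a => 4 * sz a + sz b + 3,
    (((PB.const 4).mul PB.sz).add (PB.const (sz b))).add (PB.const 3),
    pConst (enc b), fun a => runsTo_const _ _⟩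

theorem PTime.pair {f : α → β} {g : α → γ} (hf : PTime f) (hg : PTime g) :
    PTime (fun a => (f a, g a)) := by
  obtain ⟨T, hT, p, hp⟩ := hf
  obtain ⟨T', hT', q, hq⟩ := hg
  refine ⟨fun a => 40 * sz a + T a + 10 * T' a + 12, ?_, pPair p q, fun a => (hp a).pair (hq a)⟩
  exact ((((PB.const 40).mul PB.sz).add hT).add ((PB.const 10).mul hT')).add (PB.const 12)

theorem PTime.car : PTime Tr.car :=
  ⟨fun a => 13 * sz a + 10, ((PB.const 13).mul PB.sz).add (PB.const 10), pCar, runsTo_car⟩

theorem PTime.cdr : PTime Tr.cdr :=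
  ⟨fun a => 4 * sz a + 10, ((PB.const 4).mul PB.sz).add (PB.const 10), pCdr, runsTo_cdr⟩

theorem PTime.ofTr {f : α → β} {F : Tr → Tr} (hF : PTime F) (h : ∀ a, enc (f a) = F (enc a)) :
    PTime f :=
  hF.congrEnc (fun a => enc a) (fun _ => rfl) h

theorem PTime.toTr {f : α → β} (hf : PTime f) : PTime (fun a => enc (f a)) :=
  hf.congrEnc (fun a => a) (fun _ => rfl) (fun _ => rfl)

theorem PTime.fst {f : α → β × γ} (hf : PTime f) : PTime (fun a => (f a).1) :=
  (PTime.ofTr PTime.car (f := fun p : β × γ => p.1) (fun _ => rfl)).comp hf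

theorem PTime.snd {f : α → β × γ} (hf : PTime f) : PTime (fun a => (f a).2) :=
  (PTime.ofTr PTime.cdr (f := fun p : β × γ => p.2) (fun _ => rfl)).comp hf

theorem enc_isCons_bool (b : Bool) : (enc b).isCons = b := by cases b <;> rfl

theorem PTime.ite {c : α → Bool} {f g : α → β} (hc : PTime c) (hf : PTime f) (hg : PTime g) :
    PTime (fun a => if c a = true then f a else g a) := by
  obtain ⟨T, hT, p, hp⟩ := hc
  obtain ⟨T', hT', q, hq⟩ := hf
  obtain ⟨T'', hT'', r, hr⟩ := hg
  refine ⟨fun a => 22 * sz a + 5 * T a + (T' a + T'' a) + 8, ?_, pIte p q r, fun a => ?_⟩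
  · exact ((((PB.const 22).mul PB.sz).add ((PB.const 5).mul hT)).add (hT'.add hT'')).add
      (PB.const 8)
  · by_cases h : c a = true
    · simp only [h, if_true]
      refine (RunsTo.iteT (hp a) (by rw [enc_isCons_bool]; exact h) (hq a)).mono ?_
      unfold sz; omega
    · simp only [h]
      refine (RunsTo.iteF (hp a) (by rw [enc_isCons_bool]; simpa using h) (hr a)).mono ?_
      unfold sz; omega

theorem PTime.cond {c : α → Bool} {f g : α → β} (hc : PTime c) (hf : PTime f) (hg : PTime g) :
    PTime (fun a => bif c a then f a else g a) := by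
  refine (PTime.ite hc hf hg).congrEnc (fun a => a) (fun _ => rfl) (fun a => ?_)
  cases c a <;> rfl

theorem PTime.cons {f : α → β} {g : α → List β} (hf : PTime f) (hg : PTime g) :
    PTime (fun a => f a :: g a) :=
  (hf.pair hg).congrEnc (fun a => a) (fun _ => rfl) (fun _ => rfl)

/-- Pattern matching on a list. -/
theorem PTime.listCases {l : α → List γ} {g : α → β} {h : α → γ → List γ → β} (hl : PTime l)
    (hg : PTime g) (hh : PTime (fun p : α × γ × List γ => h p.1 p.2.1 p.2.2)) :
    PTime (fun a => match l a with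
      | [] => g a
      | c :: l' => h a c l') := by
  have hl0 := hl
  obtain ⟨T, hT, p, hp⟩ := hl0
  obtain ⟨T', hT', q, hq⟩ := hg
  obtain ⟨Q, QP, hQ⟩ := hh.exists_poly
  have hpair : PTime (fun a => (a, l a)) := PTime.id.pair hl
  have hpair0 := hpair
  obtain ⟨T3, hT3, r, hr⟩ := hpair0
  refine ⟨fun a => 22 * sz a + 5 * T a + (T' a + (T3 a + QP.eval (sz (a, l a)))) + 8, ?_,
    pIte p (.seq r Q) q, fun a => ?_⟩
  · exact ((((PB.const 22).mul PB.sz).add ((PB.const 5).mul hT)).add
      (hT'.add (hT3.add (hpair.pb_sz.poly QP)))).add (PB.const 8)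
  · have hpa := hp a
    have hra : RunsTo r (enc a) (enc (a, l a)) (T3 a) := hr a
    obtain hla | ⟨c, l', hla⟩ : l a = [] ∨ ∃ c l', l a = c :: l' := by cases l a <;> simp
    · have hm : (match l a with
        | [] => g a
        | c :: l' => h a c l') = g a := by rw [hla]
      beta_reduce; rw [hm]
      rw [hla] at hpa
      refine (RunsTo.iteF hpa rfl (hq a)).mono ?_
      unfold sz; omega
    · have hm : (match l a with
        | [] => g a
        | c :: l' => h a c l') = h a c l' := by rw [hla]
      beta_reduce; rw [hm]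
      rw [hla] at hpa hra
      have hQa := hQ (a, c, l')
      have e : (enc (a, c, l') : Tr) = enc (a, c :: l') := rfl
      rw [e] at hQa
      refine (RunsTo.iteT hpa rfl (hra.comp hQa)).mono ?_
      have e2 : sz (a, c, l') = sz (a, c :: l') := rfl
      rw [e2, hla]
      unfold sz; omega

/-- Loops: general time bound. -/
theorem TimeB.loop {test : σ → Bool} {step : σ → σ} (ht : PTime test) (hs : PTime step) :
    ∃ (P : Polynomial ℕ) (p : SProg), ∀ (s : σ) (n B : ℕ),
      (∀ i < n, test (step^[i] s) = true) → test (step^[n] s) = false →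
      (∀ i ≤ n, sz (step^[i] s) ≤ B) →
      RunsTo p (enc s) (enc (step^[n] s)) ((n + 2) * P.eval B) := by
  obtain ⟨p, P, hp⟩ := ht.exists_poly
  obtain ⟨q, Q, hq⟩ := hs.exists_poly
  refine ⟨3 * (30 * Polynomial.X + 5 * P + 10 + Q), pWhile p q, fun s n B h1 h0 hB => ?_⟩
  have hq' : ∀ i < n, RunsTo q (enc (step^[i] s)) (enc (step^[i + 1] s)) (Q.eval B) := by
    intro i hi
    have := hq (step^[i] s)
    rw [← Function.iterate_succ_apply' step i s] at this
    exact this.mono (polyEval_mono _ (hB i hi.le))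
  have := RunsTo.while (p := p) (q := q) (30 * B + 5 * P.eval B + 10 + Q.eval B) n
    (fun i => enc (step^[i] s)) (fun i => enc (test (step^[i] s))) (fun _ => P.eval B)
    (fun _ => Q.eval B)
    (fun i hi => (hp (step^[i] s)).mono (polyEval_mono _ (hB i hi)))
    hq'
    (fun i hi => (enc_isCons_bool _).trans (h1 i hi))
    ((enc_isCons_bool _).trans h0)
    (fun i hi => by
      have := hB i hi
      unfold sz at this
      omega)
    (fun i hi => by omega)
  refine this.mono (le_of_eq ?_)
  simp only [Polynomial.eval_mul, Polynomial.eval_add, Polynomial.eval_ofNat, Polynomial.eval_X]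

/-- Loops with polynomially many iterations. -/
theorem PTime.loop {test : σ → Bool} {step : σ → σ} (ht : PTime test) (hs : PTime step)
    {init : α → σ} (hi : PTime init) (N B : α → ℕ) (hN : PB N) (hB : PB B)
    (h1 : ∀ a, ∀ i < N a, test (step^[i] (init a)) = true)
    (h0 : ∀ a, test (step^[N a] (init a)) = false)
    (hsz : ∀ a, ∀ i ≤ N a, sz (step^[i] (init a)) ≤ B a) :
    PTime (fun a => step^[N a] (init a)) := by
  obtain ⟨P, p, hp⟩ := TimeB.loop ht hs
  obtain ⟨T, hT, q, hq⟩ := hi
  exact ⟨fun a => T a + (N a + 2) * P.eval (B a),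
    hT.add ((hN.add (PB.const 2)).mul (hB.poly P)), .seq q p,
    fun a => (hq a).comp (hp _ _ _ (h1 a) (h0 a) (hsz a))⟩

/-- Left folds. The size of the intermediate results must be polynomially bounded. -/
theorem PTime.foldl {l : α → List γ} {g : α → β} {F : α → β → γ → β} (hl : PTime l)
    (hg : PTime g) (hF : PTime (fun p : α × β × γ => F p.1 p.2.1 p.2.2))
    (B : α → ℕ) (hB : PB B)
    (hb : ∀ a l₁ l₂, l a = l₁ ++ l₂ → sz (l₁.foldl (F a) (g a)) ≤ B a) :
    PTime (fun a => (l a).foldl (F a) (g a)) := by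
  -- the state of the loop
  let step : α × β × List γ → α × β × List γ := fun s => match s.2.2 with
    | [] => s
    | c :: l' => (s.1, F s.1 s.2.1 c, l')
  let test : α × β × List γ → Bool := fun s => match s.2.2 with
    | [] => false
    | _ :: _ => true
  have hstep : PTime step := by
    refine PTime.listCases (l := fun s : α × β × List γ => s.2.2) (g := fun s => s)
      (h := fun s c l' => (s.1, F s.1 s.2.1 c, l')) PTime.id.snd.snd PTime.id ?_
    refine PTime.pair PTime.id.fst.fst (PTime.pair ?_ PTime.id.snd.snd)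
    exact hF.comp (PTime.pair PTime.id.fst.fst (PTime.pair PTime.id.fst.snd.fst PTime.id.snd.fst))
  have htest : PTime test :=
    PTime.listCases (l := fun s : α × β × List γ => s.2.2) (g := fun _ => false)
      (h := fun _ _ _ => true) PTime.id.snd.snd (PTime.const _) (PTime.const _)
  have hinit : PTime (fun a => (a, g a, l a)) := PTime.id.pair (hg.pair hl)
  have key : ∀ (a : α) (l₁ l₂ : List γ) (b : β),
      step^[l₁.length] (a, b, l₁ ++ l₂) = (a, l₁.foldl (F a) b, l₂) := by
    intro a l₁
    induction l₁ with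
    | nil => intro l₂ b; rfl
    | cons c l₁ ih =>
      intro l₂ b
      rw [List.length_cons, Function.iterate_succ_apply]
      exact ih l₂ _
  have key2 : ∀ (a : α) (i : ℕ), i ≤ (l a).length → step^[i] (a, g a, l a) =
      (a, ((l a).take i).foldl (F a) (g a), (l a).drop i) := by
    intro a i hi
    have := key a ((l a).take i) ((l a).drop i) (g a)
    rw [List.take_append_drop, List.length_take, min_eq_left hi] at this
    exact this
  have main := PTime.loop htest hstep hinit (fun a => (l a).length)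
    (fun a => sz a + (B a + sz (l a) + 1) + 1) (hl.pb_sz.mono (fun a => (length_lt_sz _).le))
    ((PB.sz.add ((hB.add hl.pb_sz).add (PB.const 1))).add (PB.const 1)) ?_ ?_ ?_
  · have h2 := main.snd.fst
    refine h2.congrEnc (fun a => a) (fun _ => rfl) (fun a => ?_)
    rw [key2 a _ le_rfl]
    simp
  · intro a i hi
    rw [key2 a i hi.le]
    have : (l a).drop i ≠ [] := by
      intro h
      have := congrArg List.length h
      simp only [List.length_drop, List.length_nil] at this
      omega
    rcases h : (l a).drop i with _ | ⟨c, l'⟩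
    · exact absurd h this
    · rfl
  · intro a
    rw [key2 a _ le_rfl]
    simp [test]
  · intro a i hi
    rw [key2 a i hi]
    simp only [sz_prod]
    have h1 := hb a ((l a).take i) ((l a).drop i) (List.take_append_drop _ _).symm
    have h2 := sz_append ((l a).take i) ((l a).drop i)
    rw [List.take_append_drop] at h2
    have h3 := one_le_sz ((l a).take i)
    omega

end Pool.Agent.Lib.MP_7c7c4f_lc.TM
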