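import Mathlib

/-!
# Structured programs on four stacks of booleans, compiled to `Turing.FinTM2`

We define a small structured programming language acting on four stacks of booleans,
a big-step semantics with an exact step count, and a compilation to Mathlib's
multi-stack Turing machines (`Turing.TM2`), which preserves the step count.
-/

namespace Pool.Agent.Lib.MP_7c7c4f_lc.TM

open Turing Function

/-- The four stacks: `main` carries the data, `a` and `b` are auxiliary (and are also used as
input and output stack respectively), `c` is a counter. -/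
inductive Reg | main | a | b | c
deriving DecidableEq

instance : Fintype Reg where
  elems := ⟨[Reg.main, Reg.a, Reg.b, Reg.c], by decide⟩
  complete := by intro x; cases x <;> decide

/-- Structured programs. -/
inductive SProg
  | skip : SProg
  | push : Reg → Bool → SProg
  | pop : Reg → SProg
  | seq : SProg → SProg → SProg
  | ite : Reg → (Option Bool → Bool) → SProg → SProg → SProg
  | loop : Reg → (Option Bool → Bool) → SProg → SProg

/-- The contents of the stacks. -/
abbrev St := Reg → List Bool

/-- Big-step semantics with step count. -/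
inductive Exec : SProg → St → St → ℕ → Prop
  | skip (s : St) : Exec .skip s s 1
  | push (k : Reg) (x : Bool) (s : St) : Exec (.push k x) s (update s k (x :: s k)) 1
  | pop (k : Reg) (s : St) : Exec (.pop k) s (update s k (s k).tail) 1
  | seq {p q : SProg} {s s' s'' : St} {t t' : ℕ} :
      Exec p s s' t → Exec q s' s'' t' → Exec (.seq p q) s s'' (t + t')
  | iteT {k : Reg} {f : Option Bool → Bool} {p q : SProg} {s s' : St} {t : ℕ} :
      f (s k).head? = true → Exec p s s' t → Exec (.ite k f p q) s s' (t + 1)
  | iteF {k : Reg} {f : Option Bool → Bool} {p q : SProg} {s s' : St} {t : ℕ} :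
      f (s k).head? = false → Exec q s s' t → Exec (.ite k f p q) s s' (t + 1)
  | loopT {k : Reg} {f : Option Bool → Bool} {p : SProg} {s s' s'' : St} {t t' : ℕ} :
      f (s k).head? = true → Exec p s s' t → Exec (.loop k f p) s' s'' t' →
        Exec (.loop k f p) s s'' (t + t' + 1)
  | loopF {k : Reg} {f : Option Bool → Bool} {p : SProg} {s : St} :
      f (s k).head? = false → Exec (.loop k f p) s s 1

/-- The labels used by the compilation of a program. -/
def Lab : SProg → Type
  | .skip => Unit
  | .push _ _ => Unit
  | .pop _ => Unit
  | .seq p q => Lab p ⊕ Lab q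
  | .ite _ _ p q => Option (Lab p ⊕ Lab q)
  | .loop _ _ p => Option (Lab p)

instance instFintypeLab : (p : SProg) → Fintype (Lab p)
  | .skip => inferInstanceAs (Fintype Unit)
  | .push _ _ => inferInstanceAs (Fintype Unit)
  | .pop _ => inferInstanceAs (Fintype Unit)
  | .seq p q =>
    letI := instFintypeLab p
    letI := instFintypeLab q
    inferInstanceAs (Fintype (Lab p ⊕ Lab q))
  | .ite _ _ p q =>
    letI := instFintypeLab p
    letI := instFintypeLab q
    inferInstanceAs (Fintype (Option (Lab p ⊕ Lab q)))
  | .loop _ _ p =>
    letI := instFintypeLab p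
    inferInstanceAs (Fintype (Option (Lab p)))

/-- The entry label of a program. -/
def entry : (p : SProg) → Lab p
  | .skip => ()
  | .push _ _ => ()
  | .pop _ => ()
  | .seq p _ => Sum.inl (entry p)
  | .ite _ _ _ _ => none
  | .loop _ _ _ => none

/-- Statements of the target machines. -/
abbrev TStmt (Λ : Type) := TM2.Stmt (fun _ : Reg => Bool) Λ (Option Bool)

/-- Compilation: the statement attached to each label, given an embedding of the labels of the
program into the labels of the machine, and an exit label. -/
def code : (p : SProg) → {Λ : Type} → (Lab p → Λ) → Λ → Lab p → TStmt Λ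
  | .skip, _, _, exit, _ => .goto fun _ => exit
  | .push k x, _, _, exit, _ => .push k (fun _ => x) (.goto fun _ => exit)
  | .pop k, _, _, exit, _ => .pop k (fun _ _ => none) (.goto fun _ => exit)
  | .seq p q, _, emb, exit, l =>
      match l with
      | Sum.inl l => code p (fun l => emb (Sum.inl l)) (emb (Sum.inr (entry q))) l
      | Sum.inr l => code q (fun l => emb (Sum.inr l)) exit l
  | .ite k f p q, _, emb, exit, l =>
      match l with
      | none => .peek k (fun _ o => o)
          (.goto fun v => if f v then emb (some (Sum.inl (entry p)))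
            else emb (some (Sum.inr (entry q))))
      | some (Sum.inl l) => code p (fun l => emb (some (Sum.inl l))) exit l
      | some (Sum.inr l) => code q (fun l => emb (some (Sum.inr l))) exit l
  | .loop k f p, _, emb, exit, l =>
      match l with
      | none => .peek k (fun _ o => o)
          (.goto fun v => if f v then emb (some (entry p)) else exit)
      | some l => code p (fun l => emb (some l)) (emb none) l

/-- `Reach M c c' t`: the machine goes from `c` to `c'` in exactly `t` steps. -/
def Reach {Λ : Type} (M : Λ → TStmt Λ) (c c' : TM2.Cfg (fun _ : Reg => Bool) Λ (Option Bool))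
    (t : ℕ) : Prop :=
  (flip bind (TM2.step M))^[t] (some c) = some c'

theorem Reach.trans {Λ : Type} {M : Λ → TStmt Λ}
    {c c' c'' : TM2.Cfg (fun _ : Reg => Bool) Λ (Option Bool)} {t t' : ℕ}
    (h : Reach M c c' t) (h' : Reach M c' c'' t') : Reach M c c'' (t + t') := by
  unfold Reach at *
  rw [add_comm, Function.iterate_add_apply, h, h']

theorem Reach.one {Λ : Type} {M : Λ → TStmt Λ}
    {l : Λ} {v : Option Bool} {s : St} {c : TM2.Cfg (fun _ : Reg => Bool) Λ (Option Bool)}
    (h : TM2.stepAux (M l) v s = c) : Reach M ⟨some l, v, s⟩ c 1 := by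
  subst h
  rfl

/-- The compilation is correct: it simulates the big-step semantics with the same step count. -/
theorem Exec.reach {p : SProg} {s s' : St} {t : ℕ} (h : Exec p s s' t) :
    ∀ {Λ : Type} (M : Λ → TStmt Λ) (emb : Lab p → Λ) (exit : Λ)
      (_ : ∀ l, M (emb l) = code p emb exit l) (v : Option Bool),
      ∃ v', Reach M ⟨some (emb (entry p)), v, s⟩ ⟨some exit, v', s'⟩ t := by
  induction h with
  | skip s =>
    intro Λ M emb exit hM v
    exact ⟨v, Reach.one (congrArg (fun q => TM2.stepAux q v s) (hM ()))⟩
  | push k x s =>
    intro Λ M emb exit hM v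
    exact ⟨v, Reach.one (congrArg (fun q => TM2.stepAux q v s) (hM ()))⟩
  | pop k s =>
    intro Λ M emb exit hM v
    exact ⟨none, Reach.one (congrArg (fun q => TM2.stepAux q v s) (hM ()))⟩
  | @seq p q s s' s'' t t' _ _ ih1 ih2 =>
    intro Λ M emb exit hM v
    obtain ⟨v1, h1⟩ := ih1 M (fun l => emb (Sum.inl l)) (emb (Sum.inr (entry q)))
      (fun l => hM (Sum.inl l)) v
    obtain ⟨v2, h2⟩ := ih2 M (fun l => emb (Sum.inr l)) exit (fun l => hM (Sum.inr l)) v1
    exact ⟨v2, h1.trans h2⟩
  | @iteT k f p q s s' t hf _ ih =>
    intro Λ M emb exit hM v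
    obtain ⟨v1, h1⟩ := ih M (fun l => emb (some (Sum.inl l))) exit
      (fun l => hM (some (Sum.inl l))) (s k).head?
    refine ⟨v1, ?_⟩
    rw [add_comm]
    refine Reach.trans (Reach.one ?_) h1
    refine (congrArg (fun q => TM2.stepAux q v s) (hM none)).trans ?_
    simp [code, hf]
  | @iteF k f p q s s' t hf _ ih =>
    intro Λ M emb exit hM v
    obtain ⟨v1, h1⟩ := ih M (fun l => emb (some (Sum.inr l))) exit
      (fun l => hM (some (Sum.inr l))) (s k).head?
    refine ⟨v1, ?_⟩
    rw [add_comm]
    refine Reach.trans (Reach.one ?_) h1
    refine (congrArg (fun q => TM2.stepAux q v s) (hM none)).trans ?_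
    simp [code, hf]
  | @loopT k f p s s' s'' t t' hf _ _ ih1 ih2 =>
    intro Λ M emb exit hM v
    obtain ⟨v1, h1⟩ := ih1 M (fun l => emb (some l)) (emb none)
      (fun l => hM (some l)) (s k).head?
    obtain ⟨v2, h2⟩ := ih2 M emb exit hM v1
    refine ⟨v2, ?_⟩
    rw [add_comm]
    refine Reach.trans (Reach.one ?_) (h1.trans h2)
    refine (congrArg (fun q => TM2.stepAux q v s) (hM none)).trans ?_
    simp [code, hf]
  | @loopF k f p s hf =>
    intro Λ M emb exit hM v
    refine ⟨(s k).head?, Reach.one ?_⟩
    refine (congrArg (fun q => TM2.stepAux q v s) (hM none)).trans ?_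
    simp [code, hf]

/-- The machine associated with a program: run the program, then halt. Input stack `a`,
output stack `b`. -/
def toTM (p : SProg) : FinTM2 where
  K := Reg
  k₀ := .a
  k₁ := .b
  Γ := fun _ => Bool
  Λ := Option (Lab p)
  main := some (entry p)
  σ := Option Bool
  initialState := none
  m := fun l => match l with
    | none => .load (fun _ => none) .halt
    | some l => code p some none l

/-- If a program started with `w` on stack `a` and everything else empty ends with `w'` on
stack `b` and everything else empty, then the associated machine outputs `w'` on input `w`. -/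
theorem Exec.outputs {p : SProg} {w w' : List Bool} {t : ℕ}
    (h : Exec p (update (fun _ => []) Reg.a w) (update (fun _ => []) Reg.b w') t) :
    Nonempty (TM2OutputsInTime (toTM p) w (some w') (t + 1)) := by
  obtain ⟨v, hv⟩ := h.reach (M := (toTM p).m) some none (fun l => rfl) none
  refine ⟨⟨⟨t + 1, ?_⟩, le_rfl⟩⟩
  have hfin : Reach (toTM p).m ⟨some none, v, update (fun _ => []) Reg.b w'⟩
      ⟨none, none, update (fun _ => []) Reg.b w'⟩ 1 := Reach.one rfl
  have := hv.trans hfin
  unfold Reach at this
  have e1 : initList (toTM p) w =
      (⟨some (some (entry p)), none, update (fun _ => []) Reg.a w⟩ :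
        TM2.Cfg (fun _ : Reg => Bool) (Option (Lab p)) (Option Bool)) := by
    unfold initList
    refine congrArg (fun z => (⟨some (some (entry p)), none, z⟩ :
        TM2.Cfg (fun _ : Reg => Bool) (Option (Lab p)) (Option Bool))) ?_
    funext k
    cases k <;> rfl
  have e2 : haltList (toTM p) w' =
      (⟨none, none, update (fun _ => []) Reg.b w'⟩ :
        TM2.Cfg (fun _ : Reg => Bool) (Option (Lab p)) (Option Bool)) := by
    unfold haltList
    refine congrArg (fun z => (⟨none, none, z⟩ :
        TM2.Cfg (fun _ : Reg => Bool) (Option (Lab p)) (Option Bool))) ?_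
    funext k
    cases k <;> rfl
  refine Eq.trans ?_ (this.trans ?_)
  · exact congrArg (fun z => (flip bind (TM2.step (toTM p).m))^[t + 1] (some z)) e1
  · exact (congrArg some e2).symm

end Pool.Agent.Lib.MP_7c7c4f_lc.TM
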