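import Pool.Agent.Lib.MP_7c7c4f_lc.TM.Prog

/-!
# Binary trees on stacks, and functions on trees computed by structured programs
-/

namespace Pool.Agent.Lib.MP_7c7c4f_lc.TM

open Function

/-- Binary trees: the universal data type. -/
inductive Tr
  | nil : Tr
  | cons : Tr → Tr → Tr

namespace Tr

/-- Self-delimiting code of a tree. -/
def code : Tr → List Bool
  | nil => [false]
  | cons x y => true :: (x.code ++ y.code)

/-- Size of a tree. -/
def size : Tr → ℕ
  | nil => 1
  | cons x y => x.size + y.size + 1

@[simp] theorem length_code (x : Tr) : x.code.length = x.size := by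
  induction x with
  | nil => rfl
  | cons x y ihx ihy => simp [code, size, ihx, ihy]

theorem one_le_size (x : Tr) : 1 ≤ x.size := by
  cases x <;> simp [size]

/-- First component. -/
def car : Tr → Tr
  | nil => nil
  | cons x _ => x

/-- Second component. -/
def cdr : Tr → Tr
  | nil => nil
  | cons _ y => y

/-- Is the tree a `cons`? -/
def isCons : Tr → Bool
  | nil => false
  | cons _ _ => true

end Tr

/-- A state given by its four stacks. -/
def mk (m a b c : List Bool) : St
  | .main => m
  | .a => a
  | .b => b
  | .c => c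

section mk
variable (m a b c l : List Bool)
@[simp] theorem mk_main : mk m a b c .main = m := rfl
@[simp] theorem mk_a : mk m a b c .a = a := rfl
@[simp] theorem mk_b : mk m a b c .b = b := rfl
@[simp] theorem mk_c : mk m a b c .c = c := rfl
@[simp] theorem update_main : update (mk m a b c) .main l = mk l a b c := by
  funext k; cases k <;> rfl
@[simp] theorem update_a : update (mk m a b c) .a l = mk m l b c := by
  funext k; cases k <;> rfl
@[simp] theorem update_b : update (mk m a b c) .b l = mk m a l c := by
  funext k; cases k <;> rfl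
@[simp] theorem update_c : update (mk m a b c) .c l = mk m a b l := by
  funext k; cases k <;> rfl
end mk

theorem Exec.cast {p : SProg} {s s' s'' : St} {t t' : ℕ} (h : Exec p s s' t)
    (hs : s' = s'') (ht : t = t') : Exec p s s'' t' := by
  subst hs; subst ht; exact h

section basic
variable {m a b c : List Bool} {x : Bool}

theorem exPushMain : Exec (.push .main x) (mk m a b c) (mk (x :: m) a b c) 1 :=
  (Exec.push _ _ _).cast (by simp) rfl
theorem exPushA : Exec (.push .a x) (mk m a b c) (mk m (x :: a) b c) 1 :=
  (Exec.push _ _ _).cast (by simp) rfl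
theorem exPushB : Exec (.push .b x) (mk m a b c) (mk m a (x :: b) c) 1 :=
  (Exec.push _ _ _).cast (by simp) rfl
theorem exPushC : Exec (.push .c x) (mk m a b c) (mk m a b (x :: c)) 1 :=
  (Exec.push _ _ _).cast (by simp) rfl
theorem exPopMain : Exec (.pop .main) (mk (x :: m) a b c) (mk m a b c) 1 :=
  (Exec.pop _ _).cast (by simp) rfl
theorem exPopA : Exec (.pop .a) (mk m (x :: a) b c) (mk m a b c) 1 :=
  (Exec.pop _ _).cast (by simp) rfl
theorem exPopB : Exec (.pop .b) (mk m a (x :: b) c) (mk m a b c) 1 :=
  (Exec.pop _ _).cast (by simp) rfl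
theorem exPopC : Exec (.pop .c) (mk m a b (x :: c)) (mk m a b c) 1 :=
  (Exec.pop _ _).cast (by simp) rfl
end basic

/-- Test: the stack is nonempty. -/
def tNonempty : Option Bool → Bool := fun o => o.isSome
/-- Test: the top of the stack is `true`. -/
def tTrue : Option Bool → Bool := fun o => o == some true

/-- Move the top tree of `main` to `a` (reversed). -/
def parseA : SProg :=
  .loop .c tNonempty
    (.ite .main tTrue
      (.seq (.pop .main) (.seq (.push .a true) (.push .c true)))
      (.seq (.pop .main) (.seq (.push .a false) (.pop .c))))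

/-- Move the top tree of `main` to `b` (reversed). -/
def parseB : SProg :=
  .loop .c tNonempty
    (.ite .main tTrue
      (.seq (.pop .main) (.seq (.push .b true) (.push .c true)))
      (.seq (.pop .main) (.seq (.push .b false) (.pop .c))))

/-- Remove the top tree of `main`. -/
def parseN : SProg :=
  .loop .c tNonempty
    (.ite .main tTrue
      (.seq (.pop .main) (.push .c true))
      (.seq (.pop .main) (.pop .c)))

theorem parseA_exec (x : Tr) : ∀ {m a b c : List Bool} {s' : St} {t : ℕ},
    Exec parseA (mk m (x.code.reverse ++ a) b c) s' t →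
    Exec parseA (mk (x.code ++ m) a b (true :: c)) s' (t + 5 * x.size) := by
  induction x with
  | nil =>
    intro m a b c s' t h
    refine (Exec.loopT rfl (Exec.iteF rfl
      (Exec.seq exPopMain (Exec.seq exPushA exPopC))) h).cast rfl ?_
    simp only [Tr.size]; ring
  | cons x y ihx ihy =>
    intro m a b c s' t h
    have h2 : Exec parseA (mk m (y.code.reverse ++ (x.code.reverse ++ (true :: a))) b c) s' t := by
      have : (Tr.cons x y).code.reverse ++ a =
        y.code.reverse ++ (x.code.reverse ++ (true :: a)) := by simp [Tr.code]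
      rw [← this]; exact h
    have h3 := ihx (ihy h2)
    have h4 : Exec parseA (mk ((Tr.cons x y).code ++ m) a b (true :: c)) s' _ :=
      Exec.loopT rfl (Exec.iteT rfl
      (Exec.seq exPopMain (Exec.seq exPushA exPushC))) (by simpa [Tr.code, parseA] using h3)
    refine h4.cast rfl ?_
    simp only [Tr.size]; ring

theorem parseB_exec (x : Tr) : ∀ {m a b c : List Bool} {s' : St} {t : ℕ},
    Exec parseB (mk m a (x.code.reverse ++ b) c) s' t →
    Exec parseB (mk (x.code ++ m) a b (true :: c)) s' (t + 5 * x.size) := by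
  induction x with
  | nil =>
    intro m a b c s' t h
    refine (Exec.loopT rfl (Exec.iteF rfl
      (Exec.seq exPopMain (Exec.seq exPushB exPopC))) h).cast rfl ?_
    simp only [Tr.size]; ring
  | cons x y ihx ihy =>
    intro m a b c s' t h
    have h2 : Exec parseB (mk m a (y.code.reverse ++ (x.code.reverse ++ (true :: b))) c) s' t := by
      have : (Tr.cons x y).code.reverse ++ b =
        y.code.reverse ++ (x.code.reverse ++ (true :: b)) := by simp [Tr.code]
      rw [← this]; exact h
    have h3 := ihx (ihy h2)
    have h4 : Exec parseB (mk ((Tr.cons x y).code ++ m) a b (true :: c)) s' _ :=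
      Exec.loopT rfl (Exec.iteT rfl
      (Exec.seq exPopMain (Exec.seq exPushB exPushC))) (by simpa [Tr.code, parseB] using h3)
    refine h4.cast rfl ?_
    simp only [Tr.size]; ring

theorem parseN_exec (x : Tr) : ∀ {m a b c : List Bool} {s' : St} {t : ℕ},
    Exec parseN (mk m a b c) s' t →
    Exec parseN (mk (x.code ++ m) a b (true :: c)) s' (t + 4 * x.size) := by
  induction x with
  | nil =>
    intro m a b c s' t h
    refine (Exec.loopT rfl (Exec.iteF rfl
      (Exec.seq exPopMain exPopC)) h).cast rfl ?_
    simp only [Tr.size]; ring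
  | cons x y ihx ihy =>
    intro m a b c s' t h
    have h3 := ihx (ihy h)
    have h4 : Exec parseN (mk ((Tr.cons x y).code ++ m) a b (true :: c)) s' _ :=
      Exec.loopT rfl (Exec.iteT rfl
      (Exec.seq exPopMain exPushC)) (by simpa [Tr.code, parseN] using h3)
    refine h4.cast rfl ?_
    simp only [Tr.size]; ring

/-- Move `a` to `main`. -/
def moveAM : SProg :=
  .loop .a tNonempty
    (.ite .a tTrue
      (.seq (.pop .a) (.push .main true))
      (.seq (.pop .a) (.push .main false)))

/-- Move `b` to `main`. -/
def moveBM : SProg :=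
  .loop .b tNonempty
    (.ite .b tTrue
      (.seq (.pop .b) (.push .main true))
      (.seq (.pop .b) (.push .main false)))

/-- Move `b` to `a`. -/
def moveBA : SProg :=
  .loop .b tNonempty
    (.ite .b tTrue
      (.seq (.pop .b) (.push .a true))
      (.seq (.pop .b) (.push .a false)))

/-- Move `a` to `b`. -/
def moveAB : SProg :=
  .loop .a tNonempty
    (.ite .a tTrue
      (.seq (.pop .a) (.push .b true))
      (.seq (.pop .a) (.push .b false)))

/-- Move `a` to both `main` and `b`. -/
def moveAMB : SProg :=
  .loop .a tNonempty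
    (.ite .a tTrue
      (.seq (.pop .a) (.seq (.push .main true) (.push .b true)))
      (.seq (.pop .a) (.seq (.push .main false) (.push .b false))))

theorem moveAM_exec (l : List Bool) : ∀ {m b c : List Bool},
    Exec moveAM (mk m l b c) (mk (l.reverse ++ m) [] b c) (4 * l.length + 1) := by
  induction l with
  | nil => intro m b c; exact Exec.loopF rfl
  | cons x l ih =>
    intro m b c
    cases x
    · refine (Exec.loopT rfl (Exec.iteF rfl (Exec.seq exPopA exPushMain)) ih).cast ?_ ?_
      · simp
      · simp only [List.length_cons]; ring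
    · refine (Exec.loopT rfl (Exec.iteT rfl (Exec.seq exPopA exPushMain)) ih).cast ?_ ?_
      · simp
      · simp only [List.length_cons]; ring

theorem moveBM_exec (l : List Bool) : ∀ {m a c : List Bool},
    Exec moveBM (mk m a l c) (mk (l.reverse ++ m) a [] c) (4 * l.length + 1) := by
  induction l with
  | nil => intro m a c; exact Exec.loopF rfl
  | cons x l ih =>
    intro m a c
    cases x
    · refine (Exec.loopT rfl (Exec.iteF rfl (Exec.seq exPopB exPushMain)) ih).cast ?_ ?_
      · simp
      · simp only [List.length_cons]; ring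
    · refine (Exec.loopT rfl (Exec.iteT rfl (Exec.seq exPopB exPushMain)) ih).cast ?_ ?_
      · simp
      · simp only [List.length_cons]; ring

theorem moveBA_exec (l : List Bool) : ∀ {m a c : List Bool},
    Exec moveBA (mk m a l c) (mk m (l.reverse ++ a) [] c) (4 * l.length + 1) := by
  induction l with
  | nil => intro m a c; exact Exec.loopF rfl
  | cons x l ih =>
    intro m a c
    cases x
    · refine (Exec.loopT rfl (Exec.iteF rfl (Exec.seq exPopB exPushA)) ih).cast ?_ ?_
      · simp
      · simp only [List.length_cons]; ring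
    · refine (Exec.loopT rfl (Exec.iteT rfl (Exec.seq exPopB exPushA)) ih).cast ?_ ?_
      · simp
      · simp only [List.length_cons]; ring

theorem moveAB_exec (l : List Bool) : ∀ {m b c : List Bool},
    Exec moveAB (mk m l b c) (mk m [] (l.reverse ++ b) c) (4 * l.length + 1) := by
  induction l with
  | nil => intro m b c; exact Exec.loopF rfl
  | cons x l ih =>
    intro m b c
    cases x
    · refine (Exec.loopT rfl (Exec.iteF rfl (Exec.seq exPopA exPushB)) ih).cast ?_ ?_
      · simp
      · simp only [List.length_cons]; ring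
    · refine (Exec.loopT rfl (Exec.iteT rfl (Exec.seq exPopA exPushB)) ih).cast ?_ ?_
      · simp
      · simp only [List.length_cons]; ring

theorem moveAMB_exec (l : List Bool) : ∀ {m b c : List Bool},
    Exec moveAMB (mk m l b c) (mk (l.reverse ++ m) [] (l.reverse ++ b) c) (5 * l.length + 1) := by
  induction l with
  | nil => intro m b c; exact Exec.loopF rfl
  | cons x l ih =>
    intro m b c
    cases x
    · refine (Exec.loopT rfl (Exec.iteF rfl
        (Exec.seq exPopA (Exec.seq exPushMain exPushB))) ih).cast ?_ ?_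
      · simp
      · simp only [List.length_cons]; ring
    · refine (Exec.loopT rfl (Exec.iteT rfl
        (Exec.seq exPopA (Exec.seq exPushMain exPushB))) ih).cast ?_ ?_
      · simp
      · simp only [List.length_cons]; ring

/-- Duplicate the top tree. -/
def pDup : SProg :=
  .seq (.push .c true) (.seq parseA (.seq moveAMB (.seq moveBA moveAM)))

/-- Swap the two top trees. -/
def pSwap : SProg :=
  .seq (.push .c true) (.seq parseA (.seq (.push .c true) (.seq parseB (.seq moveAM moveBM))))

/-- Drop the top tree. -/
def pDrop : SProg := .seq (.push .c true) parseN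

/-- The state with only the main stack nonempty. -/
abbrev ms (m : List Bool) : St := mk m [] [] []

theorem pDup_exec (x : Tr) (m : List Bool) :
    Exec pDup (ms (x.code ++ m)) (ms (x.code ++ (x.code ++ m))) (18 * x.size + 5) := by
  have h1 : Exec parseA (mk (x.code ++ m) [] [] [true]) _ _ :=
    parseA_exec x (c := []) (a := []) (Exec.loopF rfl)
  refine (Exec.seq exPushC (Exec.seq h1 (Exec.seq (moveAMB_exec _)
    (Exec.seq (moveBA_exec _) (moveAM_exec _))))).cast ?_ ?_
  · simp
  · simp only [List.length_append, List.length_reverse, Tr.length_code, List.length_nil]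
    ring

theorem pSwap_exec (x y : Tr) (m : List Bool) :
    Exec pSwap (ms (x.code ++ (y.code ++ m))) (ms (y.code ++ (x.code ++ m)))
      (9 * (x.size + y.size) + 6) := by
  have h1 : Exec parseA (mk (x.code ++ (y.code ++ m)) [] [] [true]) _ _ :=
    parseA_exec x (c := []) (a := []) (Exec.loopF rfl)
  have h2 : Exec parseB (mk (y.code ++ m) (x.code.reverse ++ []) [] [true]) _ _ :=
    parseB_exec y (c := []) (b := []) (Exec.loopF rfl)
  refine (Exec.seq exPushC (Exec.seq h1 (Exec.seq exPushC (Exec.seq h2 (Exec.seq (moveAM_exec _)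
    (moveBM_exec _)))))).cast ?_ ?_
  · simp
  · simp only [List.length_append, List.length_reverse, Tr.length_code, List.length_nil]
    ring

theorem pDrop_exec (x : Tr) (m : List Bool) :
    Exec pDrop (ms (x.code ++ m)) (ms m) (4 * x.size + 2) := by
  have h1 : Exec parseN (mk (x.code ++ m) [] [] [true]) _ _ :=
    parseN_exec x (c := []) (Exec.loopF rfl)
  refine (Exec.seq exPushC h1).cast rfl ?_
  ring

/-- Total size of a state. -/
def total (s : St) : ℕ := (s .main).length + (s .a).length + (s .b).length + (s .c).length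

theorem total_update (s : St) (k : Reg) (l : List Bool) :
    total (update s k l) + (s k).length = total s + l.length := by
  cases k <;> simp [total, update] <;> ring

theorem Exec.total_le {p : SProg} {s s' : St} {t : ℕ} (h : Exec p s s' t) :
    total s' ≤ total s + t := by
  induction h with
  | skip s => omega
  | push k x s =>
    have := total_update s k (x :: s k)
    simp only [List.length_cons] at this
    omega
  | pop k s =>
    have := total_update s k (s k).tail
    simp only [List.length_tail] at this
    omega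
  | seq _ _ ih1 ih2 => omega
  | iteT _ _ ih => omega
  | iteF _ _ ih => omega
  | loopT _ _ _ ih1 ih2 => omega
  | loopF _ => omega

/-- `RunsTo p x y t`: the program `p` replaces the tree `x` on top of the main stack by `y` in at
most `t` steps. -/
def RunsTo (p : SProg) (x y : Tr) (t : ℕ) : Prop :=
  ∀ m, ∃ t' ≤ t, Exec p (ms (x.code ++ m)) (ms (y.code ++ m)) t'

theorem RunsTo.size_le {p : SProg} {x y : Tr} {t : ℕ} (h : RunsTo p x y t) :
    y.size ≤ x.size + t := by
  obtain ⟨t, ht, h⟩ := h []
  have := h.total_le
  simp [total] at this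
  omega

theorem RunsTo.mono {p : SProg} {x y : Tr} {t t' : ℕ} (h : RunsTo p x y t) (ht : t ≤ t') :
    RunsTo p x y t' := by
  intro m
  obtain ⟨u, hu, h⟩ := h m
  exact ⟨u, hu.trans ht, h⟩

theorem runsTo_skip (x : Tr) : RunsTo .skip x x 1 := fun _ => ⟨1, le_rfl, Exec.skip _⟩

theorem RunsTo.comp {p q : SProg} {x y z : Tr} {t t' : ℕ}
    (h : RunsTo p x y t) (h' : RunsTo q y z t') : RunsTo (.seq p q) x z (t + t') := by
  intro m
  obtain ⟨u, hu, h⟩ := h m
  obtain ⟨u', hu', h'⟩ := h' m
  exact ⟨u + u', by omega, h.seq h'⟩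

/-- Program for pairing. -/
def pPair (p q : SProg) : SProg :=
  .seq pDup (.seq q (.seq pSwap (.seq p (.push .main true))))

theorem RunsTo.pair {p q : SProg} {x y z : Tr} {t t' : ℕ}
    (h : RunsTo p x y t) (h' : RunsTo q x z t') :
    RunsTo (pPair p q) x (.cons y z) (40 * x.size + t + 10 * t' + 12) := by
  intro m
  have hsz := h'.size_le
  obtain ⟨u', hu', h'⟩ := h' (x.code ++ m)
  obtain ⟨u, hu, h⟩ := h (z.code ++ m)
  refine ⟨_, ?_, (Exec.seq (pDup_exec x m) (Exec.seq h' (Exec.seq (pSwap_exec _ _ _)
    (Exec.seq h exPushMain)))).cast ?_ rfl⟩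
  · omega
  · simp [Tr.code]

/-- Program pushing a word. -/
def pPush : List Bool → SProg
  | [] => .skip
  | x :: l => .seq (pPush l) (.push .main x)

theorem pPush_exec (l m : List Bool) : Exec (pPush l) (ms m) (ms (l ++ m)) (l.length + 1) := by
  induction l with
  | nil => exact Exec.skip _
  | cons x l ih => exact (Exec.seq ih exPushMain).cast rfl (by simp)

/-- Program for constants. -/
def pConst (y : Tr) : SProg := .seq pDrop (pPush y.code)

theorem runsTo_const (x y : Tr) : RunsTo (pConst y) x y (4 * x.size + y.size + 3) := by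
  intro m
  refine ⟨_, ?_, Exec.seq (pDrop_exec x m) (pPush_exec _ _)⟩
  simp only [Tr.length_code]; omega

/-- Program for the first component. -/
def pCar : SProg := .ite .main tTrue (.seq (.pop .main) (.seq pSwap pDrop)) .skip

/-- Program for the second component. -/
def pCdr : SProg := .ite .main tTrue (.seq (.pop .main) pDrop) .skip

theorem runsTo_car (x : Tr) : RunsTo pCar x x.car (13 * x.size + 10) := by
  intro m
  cases x with
  | nil => exact ⟨_, by simp only [Tr.size]; omega, Exec.iteF rfl (Exec.skip _)⟩
  | cons x y =>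
    have hs : Exec pSwap (ms ((x.code ++ y.code) ++ m)) (ms (y.code ++ (x.code ++ m)))
        (9 * (x.size + y.size) + 6) := by
      rw [List.append_assoc]; exact pSwap_exec x y m
    refine ⟨_, ?_, Exec.iteT rfl (Exec.seq exPopMain (Exec.seq hs (pDrop_exec y _)))⟩
    simp only [Tr.size]; omega

theorem runsTo_cdr (x : Tr) : RunsTo pCdr x x.cdr (4 * x.size + 10) := by
  intro m
  cases x with
  | nil => exact ⟨_, by simp only [Tr.size]; omega, Exec.iteF rfl (Exec.skip _)⟩
  | cons x y =>
    have hs : Exec pDrop (ms ((x.code ++ y.code) ++ m)) (ms (y.code ++ m))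
        (4 * x.size + 2) := by
      rw [List.append_assoc]; exact pDrop_exec x (y.code ++ m)
    refine ⟨_, ?_, Exec.iteT rfl (Exec.seq exPopMain hs)⟩
    simp only [Tr.size]; omega

/-- Program for the conditional. -/
def pIte (p q r : SProg) : SProg :=
  .seq pDup (.seq p (.ite .main tTrue (.seq pDrop q) (.seq pDrop r)))

theorem tTrue_code (x : Tr) (m : List Bool) : tTrue ((x.code ++ m).head?) = x.isCons := by
  cases x <;> rfl

theorem RunsTo.iteT {p q r : SProg} {x c y : Tr} {t t' : ℕ} (hf : RunsTo p x c t)
    (hc : c.isCons = true) (hg : RunsTo q x y t') :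
    RunsTo (pIte p q r) x y (22 * x.size + 5 * t + t' + 8) := by
  intro m
  have hsz := hf.size_le
  obtain ⟨u, hu, hf⟩ := hf (x.code ++ m)
  obtain ⟨u', hu', hg⟩ := hg m
  refine ⟨_, ?_, Exec.seq (pDup_exec x m) (Exec.seq hf (Exec.iteT ?_
    (Exec.seq (pDrop_exec _ _) hg)))⟩
  · omega
  · simp only [mk_main]; rw [tTrue_code]; exact hc

theorem RunsTo.iteF {p q r : SProg} {x c y : Tr} {t t' : ℕ} (hf : RunsTo p x c t)
    (hc : c.isCons = false) (hg : RunsTo r x y t') :
    RunsTo (pIte p q r) x y (22 * x.size + 5 * t + t' + 8) := by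
  intro m
  have hsz := hf.size_le
  obtain ⟨u, hu, hf⟩ := hf (x.code ++ m)
  obtain ⟨u', hu', hg⟩ := hg m
  refine ⟨_, ?_, Exec.seq (pDup_exec x m) (Exec.seq hf (Exec.iteF ?_
    (Exec.seq (pDrop_exec _ _) hg)))⟩
  · omega
  · simp only [mk_main]; rw [tTrue_code]; exact hc

/-- The kernel of the while loop. -/
def pWhileAux (p q : SProg) : SProg :=
  .seq (.loop .main tTrue (.seq pDrop (.seq q (.seq pDup p)))) pDrop

/-- Program for the while loop. -/
def pWhile (p q : SProg) : SProg :=
  .seq pDup (.seq p (pWhileAux p q))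

theorem RunsTo.while_aux {p q : SProg} (B : ℕ) : ∀ (n : ℕ) (x c : ℕ → Tr) (T T' : ℕ → ℕ)
      (_ : ∀ i ≤ n, RunsTo p (x i) (c i) (T i))
      (_ : ∀ i < n, RunsTo q (x i) (x (i + 1)) (T' i))
      (_ : ∀ i < n, (c i).isCons = true) (_ : (c n).isCons = false)
      (_ : ∀ i ≤ n, 30 * (x i).size + 5 * T i + 10 ≤ B) (_ : ∀ i < n, T' i ≤ B) (m : List Bool),
      ∃ t ≤ (n + 1) * (3 * B), Exec (pWhileAux p q)
        (ms ((c 0).code ++ ((x 0).code ++ m))) (ms ((x n).code ++ m)) t := by
  intro n
  induction n with
  | zero =>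
    intro x c T T' hp hq h1 h0 hB hB' m
    have hB0 := hB 0 le_rfl
    have hsz := (hp 0 le_rfl).size_le
    refine ⟨_, ?_, Exec.seq (Exec.loopF ?_) (pDrop_exec _ _)⟩
    · omega
    · simp only [mk_main]; rw [tTrue_code]; exact h0
  | succ n ih =>
    intro x c T T' hp hq h1 h0 hB hB' m
    obtain ⟨t, ht, hE⟩ := ih (fun i => x (i + 1)) (fun i => c (i + 1)) (fun i => T (i + 1))
      (fun i => T' (i + 1)) (fun i hi => hp _ (by omega)) (fun i hi => hq _ (by omega))
      (fun i hi => h1 _ (by omega)) h0 (fun i hi => hB _ (by omega))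
      (fun i hi => hB' _ (by omega)) m
    have hB0 := hB 0 (by omega)
    have hB1 := hB 1 (by omega)
    have hB2 := hB' 0 (by omega)
    have hsz := (hp 0 (by omega)).size_le
    have hsz' := (hq 0 (by omega)).size_le
    obtain ⟨t1, ht1, hE1⟩ := hq 0 (by omega) m
    obtain ⟨t2, ht2, hE2⟩ := hp 1 (by omega) ((x 1).code ++ m)
    cases hE with
    | @seq _ _ _ s' _ u u' hl hd =>
      refine ⟨_, ?_, Exec.seq (Exec.loopT ?_ (Exec.seq (pDrop_exec _ _) (Exec.seq hE1
        (Exec.seq (pDup_exec _ _) hE2))) hl) hd⟩
      · have : (n + 1 + 1) * (3 * B) = (n + 1) * (3 * B) + 3 * B := by ring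
        simp only [zero_add] at *
        omega
      · simp only [mk_main]; rw [tTrue_code]; exact h1 0 (by omega)

/-- While loops: if the loop makes `n` iterations from `x`, and all intermediate values have
costs bounded by `B`, the loop takes `O(n * B)` steps. -/
theorem RunsTo.while {p q : SProg} (B : ℕ) (n : ℕ) (x c : ℕ → Tr) (T T' : ℕ → ℕ)
    (hp : ∀ i ≤ n, RunsTo p (x i) (c i) (T i))
    (hq : ∀ i < n, RunsTo q (x i) (x (i + 1)) (T' i))
    (h1 : ∀ i < n, (c i).isCons = true) (h0 : (c n).isCons = false)
    (hB : ∀ i ≤ n, 30 * (x i).size + 5 * T i + 10 ≤ B) (hB' : ∀ i < n, T' i ≤ B) :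
    RunsTo (pWhile p q) (x 0) (x n) ((n + 2) * (3 * B)) := by
  intro m
  obtain ⟨t, ht, hE⟩ := RunsTo.while_aux B n x c T T' hp hq h1 h0 hB hB' m
  obtain ⟨t1, ht1, hE1⟩ := hp 0 (by omega) ((x 0).code ++ m)
  refine ⟨_, ?_, Exec.seq (pDup_exec _ _) (Exec.seq hE1 hE)⟩
  have hB0 := hB 0 (by omega)
  have : (n + 2) * (3 * B) = (n + 1) * (3 * B) + 3 * B := by ring
  omega

end Pool.Agent.Lib.MP_7c7c4f_lc.TM
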